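import Mathlib

/-!
# Optimal multipoint trajectories under discrete acceleration may need speed above `√L`

For every dimension `d ≥ 2` the cities `(0,0,…)`, `(3,0,…)`, `(3,3,…)` have `L = 3`, and every
optimal trajectory reaches speed at least `2 > √3` in some dimension: the optimal length is at most
`6`, while a trajectory with all speeds at most `1` has length at least `7`.
-/

namespace Pool.Agent.Results.MP_98930f_lc.SpeedBound

/-- A configuration: a position and a velocity in `ℤ^d`. -/
structure Config (d : ℕ) where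
  /-- the position -/
  p : Fin d → ℤ
  /-- the velocity -/
  v : Fin d → ℤ

/-- `c 0, …, c ℓ` is a trajectory of length `ℓ` (the values `c i` with `i > ℓ` are irrelevant). -/
def IsTrajectory {d : ℕ} (ℓ : ℕ) (c : ℕ → Config d) : Prop :=
  ∀ i < ℓ, ∀ k, (c (i + 1)).v k = (c (i + 1)).p k - (c i).p k ∧
    (c (i + 1)).v k - (c i).v k ∈ ({-1, 0, 1} : Set ℤ)

/-- The configuration `(p, v)` visits `x`: the point `x` lies on the closed line segment in `ℝ^d`
joining `p - v` and `p`. -/
def Config.Visits {d : ℕ} (c : Config d) (x : Fin d → ℤ) : Prop :=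
  (fun k => (x k : ℝ)) ∈
    segment ℝ (fun k => ((c.p k - c.v k : ℤ) : ℝ)) (fun k => (c.p k : ℝ))

/-- `c 0, …, c ℓ` is a feasible trajectory for the cities `x 0, …, x n`: it starts at `x 0` and
ends at `x n` with velocity zero, and it visits the cities in this order. -/
def Feasible {d n : ℕ} (x : Fin (n + 1) → Fin d → ℤ) (ℓ : ℕ) (c : ℕ → Config d) : Prop :=
  IsTrajectory ℓ c ∧ c 0 = ⟨x 0, 0⟩ ∧ c ℓ = ⟨x (Fin.last n), 0⟩ ∧
    ∃ idx : Fin (n + 1) → ℕ, Monotone idx ∧ (∀ j, idx j ≤ ℓ) ∧ ∀ j, (c (idx j)).Visits (x j)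

/-- An optimal trajectory: a feasible one of minimum length. -/
def Optimal {d n : ℕ} (x : Fin (n + 1) → Fin d → ℤ) (ℓ : ℕ) (c : ℕ → Config d) : Prop :=
  Feasible x ℓ c ∧ ∀ ℓ' c', Feasible x ℓ' c' → ℓ ≤ ℓ'

/-- `L`: the maximum of `|x_j^(k) - x_j'^(k)|` over all cities `j, j'` and dimensions `k`. -/
def size {d n : ℕ} (x : Fin (n + 1) → Fin d → ℤ) : ℕ :=
  Finset.univ.sup fun q : Fin (n + 1) × Fin (n + 1) × Fin d =>
    (x q.1 q.2.2 - x q.2.1 q.2.2).natAbs

/-- the three cities `(0,0,…)`, `(3,0,…)`, `(3,3,…)` -/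
def city (d : ℕ) : Fin 3 → Fin d → ℤ := fun j k =>
  if k.1 = 0 ∧ 1 ≤ j.1 then 3 else if k.1 = 1 ∧ j.1 = 2 then 3 else 0

lemma size_city (d : ℕ) (hd : 2 ≤ d) : size (n := 2) (city d) = 3 := by
  apply le_antisymm
  · refine Finset.sup_le fun q _ => ?_
    obtain ⟨i, j, k⟩ := q
    simp only [city]
    split_ifs <;> simp
  · have h : ((city d) 1 ⟨0, by omega⟩ - (city d) 0 ⟨0, by omega⟩).natAbs ≤
        size (n := 2) (city d) :=
      Finset.le_sup (f := fun q : Fin 3 × Fin 3 × Fin d =>
        ((city d) q.1 q.2.2 - (city d) q.2.1 q.2.2).natAbs)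
        (Finset.mem_univ (1, 0, ⟨0, by omega⟩))
    simpa [city] using h

/-- first coordinates of the positions of the fast trajectory -/
def px : ℕ → ℤ
  | 0 => 0 | 1 => 1 | 2 => 3 | 3 => 4 | 4 => 4 | _ => 3

/-- second coordinates of the positions of the fast trajectory -/
def py : ℕ → ℤ
  | 0 => 0 | 1 => 0 | 2 => 0 | 3 => 1 | 4 => 2 | _ => 3

/-- first coordinates of the velocities of the fast trajectory -/
def vx : ℕ → ℤ
  | 0 => 0 | 1 => 1 | 2 => 2 | 3 => 1 | 4 => 0 | 5 => -1 | _ => 0

/-- second coordinates of the velocities of the fast trajectory -/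
def vy : ℕ → ℤ
  | 0 => 0 | 1 => 0 | 2 => 0 | 3 => 1 | 4 => 1 | 5 => 1 | _ => 0

/-- a trajectory of length `6` -/
def fast (d : ℕ) : ℕ → Config d := fun i =>
  { p := fun k => if k.1 = 0 then px i else if k.1 = 1 then py i else 0
    v := fun k => if k.1 = 0 then vx i else if k.1 = 1 then vy i else 0 }

lemma visits_self {d : ℕ} (c : Config d) : c.Visits c.p := right_mem_segment ℝ _ _

lemma feasible_fast (d : ℕ) : Feasible (n := 2) (city d) 6 (fast d) := by
  refine ⟨?_, ?_, ?_, ?_⟩
  · intro i hi k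
    rcases Nat.lt_or_ge k.1 1 with h0 | h0
    · have hk : k.1 = 0 := by omega
      interval_cases i <;> simp [fast, hk, px, py, vx, vy]
    · rcases Nat.lt_or_ge k.1 2 with h1 | h1
      · have hk : k.1 = 1 := by omega
        interval_cases i <;> simp [fast, hk, px, py, vx, vy]
      · have hk0 : k.1 ≠ 0 := by omega
        have hk1 : k.1 ≠ 1 := by omega
        interval_cases i <;> simp [fast, hk0, hk1]
  · simp only [fast, Config.mk.injEq]
    constructor <;> funext k <;> simp [px, py, vx, vy, city]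
  · simp only [fast, Config.mk.injEq]
    constructor
    · funext k
      simp [Fin.last, px, py, city]
    · funext k
      simp [vx, vy]
  · refine ⟨![0, 2, 6], ?_, ?_, ?_⟩
    · intro i j hij
      fin_cases i <;> fin_cases j <;> simp_all
    · intro j
      fin_cases j <;> simp
    · intro j
      have key : ∀ i : ℕ, ∀ j : Fin 3, (fast d i).p = city d j → (fast d i).Visits (city d j) := by
        intro i j h
        rw [← h]
        exact visits_self _
      fin_cases j
      · apply key
        funext k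
        simp [fast, city, px, py]
      · apply key
        funext k
        simp [fast, city, px, py]
      · apply key
        funext k
        simp [fast, city, px, py]

/-- A configuration with speeds at most one in two dimensions which visits a point agrees with this
point, now or one step earlier, in these two dimensions. -/
lemma visits_small {d : ℕ} {c : Config d} {x : Fin d → ℤ} (h : c.Visits x) {k l : Fin d}
    (hk : |c.v k| ≤ 1) (hl : |c.v l| ≤ 1) :
    (c.p k = x k ∧ c.p l = x l) ∨ (c.p k - c.v k = x k ∧ c.p l - c.v l = x l) := by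
  obtain ⟨a, b, ha, hb, hab, h⟩ := h
  have hk' := congrFun h k
  have hl' := congrFun h l
  simp only [Pi.add_apply, Pi.smul_apply, smul_eq_mul, Int.cast_sub] at hk' hl'
  have ek : (c.p k : ℝ) - a * c.v k = x k := by
    have : b = 1 - a := by linarith
    rw [this] at hk'; linarith
  have el : (c.p l : ℝ) - a * c.v l = x l := by
    have : b = 1 - a := by linarith
    rw [this] at hl'; linarith
  -- a general fact: if the velocity is non-zero then `a` is `0` or `1`
  have main : ∀ m : Fin d, |c.v m| ≤ 1 → (c.p m : ℝ) - a * c.v m = x m →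
      (c.v m = 0 ∧ c.p m = x m) ∨ a = 0 ∨ a = 1 := by
    intro m hm em
    have hm' := abs_le.1 hm
    have h3 : c.v m = -1 ∨ c.v m = 0 ∨ c.v m = 1 := by omega
    rcases h3 with h3 | h3 | h3
    · right
      rw [h3] at em
      have e1 : a = ((x m - c.p m : ℤ) : ℝ) := by push_cast at em ⊢; linarith
      have h4 : (0 : ℤ) ≤ x m - c.p m := by rw [e1] at ha; exact_mod_cast ha
      have h5 : x m - c.p m ≤ 1 := by
        have : a ≤ 1 := by linarith
        rw [e1] at this; exact_mod_cast this
      have h6 : x m - c.p m = 0 ∨ x m - c.p m = 1 := by omega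
      rcases h6 with h6 | h6 <;> rw [h6] at e1 <;> simp [e1]
    · left
      refine ⟨h3, ?_⟩
      rw [h3] at em
      simpa using em
    · right
      rw [h3] at em
      have e1 : a = ((c.p m - x m : ℤ) : ℝ) := by push_cast at em ⊢; linarith
      have h4 : (0 : ℤ) ≤ c.p m - x m := by rw [e1] at ha; exact_mod_cast ha
      have h5 : c.p m - x m ≤ 1 := by
        have : a ≤ 1 := by linarith
        rw [e1] at this; exact_mod_cast this
      have h6 : c.p m - x m = 0 ∨ c.p m - x m = 1 := by omega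
      rcases h6 with h6 | h6 <;> rw [h6] at e1 <;> simp [e1]
  have fin0 : a = 0 → (c.p k = x k ∧ c.p l = x l) := by
    intro h0
    rw [h0] at ek el
    exact ⟨by simpa using ek, by simpa using el⟩
  have fin1 : a = 1 → (c.p k - c.v k = x k ∧ c.p l - c.v l = x l) := by
    intro h1
    rw [h1] at ek el
    exact ⟨by exact_mod_cast (by simpa using ek : (c.p k : ℝ) - c.v k = x k),
      by exact_mod_cast (by simpa using el : (c.p l : ℝ) - c.v l = x l)⟩
  rcases main k hk ek with h1 | h1 | h1
  · rcases main l hl el with h2 | h2 | h2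
    · exact Or.inl ⟨h1.2, h2.2⟩
    · exact Or.inl (fin0 h2)
    · exact Or.inr (fin1 h2)
  · exact Or.inl (fin0 h1)
  · exact Or.inr (fin1 h1)

/-- positions change by at most one per step if the speed is at most one -/
lemma pos_bound {d ℓ : ℕ} {c : ℕ → Config d} (h : IsTrajectory ℓ c) {k : Fin d}
    (hv : ∀ i ≤ ℓ, |(c i).v k| ≤ 1) (i j : ℕ) (hij : i + j ≤ ℓ) :
    |(c (i + j)).p k - (c i).p k| ≤ j := by
  induction j with
  | zero => simp
  | succ j ih =>
    have h1 := ih (by omega)
    have h2 := (h (i + j) (by omega) k).1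
    have h3 := hv (i + j + 1) (by omega)
    rw [h2] at h3
    have h4 : (c (i + (j + 1))).p k - (c i).p k =
        ((c (i + j + 1)).p k - (c (i + j)).p k) + ((c (i + j)).p k - (c i).p k) := by
      rw [← Nat.add_assoc]; ring
    rw [h4]
    refine (abs_add_le _ _).trans ?_
    push_cast
    linarith

lemma slow_long {d ℓ : ℕ} {c : ℕ → Config d} (hd : 2 ≤ d)
    (h : Feasible (n := 2) (city d) ℓ c) (hv : ∀ i ≤ ℓ, ∀ k, |(c i).v k| ≤ 1) : 7 ≤ ℓ := by
  obtain ⟨hT, h0, hℓ, idx, hmono, hle, hvis⟩ := h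
  set k0 : Fin d := ⟨0, by omega⟩ with hk0
  set k1 : Fin d := ⟨1, by omega⟩ with hk1
  have p00 : (c 0).p k0 = 0 := by rw [h0]; simp [city]
  have v00 : ∀ k, (c 0).v k = 0 := by intro k; rw [h0]; simp
  have pℓ : (c ℓ).p k1 = 3 := by rw [hℓ]; simp [city, hk1, Fin.last]
  have vℓ : (c ℓ).v k1 = 0 := by rw [hℓ]; simp
  have x0 : city d 1 k0 = 3 := by simp [city, hk0]
  have x1 : city d 1 k1 = 0 := by simp [city, hk1]
  -- a time at which the position is the second city
  obtain ⟨τ, hτ, hτ0, hτ1⟩ : ∃ τ ≤ ℓ, (c τ).p k0 = 3 ∧ (c τ).p k1 = 0 := by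
    have h1 := visits_small (hvis 1) (hv _ (hle 1) k0) (hv _ (hle 1) k1)
    rw [x0, x1] at h1
    rcases h1 with h1 | h1
    · exact ⟨idx 1, hle 1, h1⟩
    · rcases Nat.eq_zero_or_pos (idx 1) with h2 | h2
      · rw [h2] at h1
        rw [v00, v00] at h1
        exact ⟨0, Nat.zero_le _, by simpa using h1⟩
      · obtain ⟨m, hm⟩ : ∃ m, idx 1 = m + 1 := ⟨idx 1 - 1, by omega⟩
        have h3 := hle 1
        rw [hm] at h1 h3
        have e0 := (hT m (by omega) k0).1
        have e1 := (hT m (by omega) k1).1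
        exact ⟨m, by omega, by omega, by omega⟩
  have a1 : 3 ≤ τ := by
    have := pos_bound hT (fun i hi => hv i hi k0) 0 τ (by omega)
    rw [Nat.zero_add, p00, hτ0] at this
    norm_num at this
    exact_mod_cast this
  have hne : τ ≠ ℓ := by
    rintro rfl
    omega
  have hlt : τ < ℓ := lt_of_le_of_ne hτ hne
  obtain ⟨m, hm⟩ : ∃ m, ℓ = τ + m + 1 := ⟨ℓ - τ - 1, by omega⟩
  have e : (c (τ + m)).p k1 = 3 := by
    have := (hT (τ + m) (by omega) k1).1
    rw [← hm, vℓ, pℓ] at this
    omega
  have a2 : 3 ≤ m := by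
    have := pos_bound hT (fun i hi => hv i hi k1) τ m (by omega)
    rw [e, hτ1] at this
    norm_num at this
    exact_mod_cast this
  omega

/-- **Q1 is false in every dimension `d ≥ 2`**: there are three cities with `L = 3` for which every
optimal trajectory has, at some step and in some dimension, speed strictly greater than `√L`. -/
theorem result (d : ℕ) (hd : 2 ≤ d) :
    ∃ x : Fin (2 + 1) → Fin d → ℤ, size x = 3 ∧ (∃ ℓ c, Optimal x ℓ c) ∧
      ∀ ℓ c, Optimal x ℓ c → ∃ i ≤ ℓ, ∃ k, Real.sqrt (size x) < |((c i).v k : ℝ)| := by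
  refine ⟨city d, size_city d hd, ?_, ?_⟩
  · classical
    have hex : ∃ ℓ, ∃ c, Feasible (n := 2) (city d) ℓ c := ⟨6, fast d, feasible_fast d⟩
    obtain ⟨c, hc⟩ := Nat.find_spec hex
    exact ⟨Nat.find hex, c, hc, fun ℓ' c' h' => Nat.find_min' hex ⟨c', h'⟩⟩
  · rintro ℓ c ⟨hf, hmin⟩
    have h6 : ℓ ≤ 6 := hmin 6 (fast d) (feasible_fast d)
    by_contra hcon
    push Not at hcon
    have hv : ∀ i ≤ ℓ, ∀ k, |(c i).v k| ≤ 1 := by
      intro i hi k
      have h1 := hcon i hi k
      rw [size_city d hd] at h1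
      have h2 : Real.sqrt ((3 : ℕ) : ℝ) < 2 := by
        rw [Real.sqrt_lt' (by norm_num)]; norm_num
      have h3 : |((c i).v k : ℝ)| < 2 := lt_of_le_of_lt h1 h2
      have h4 : |(c i).v k| < 2 := by exact_mod_cast h3
      omega
    have := slow_long hd hf hv
    omega

end Pool.Agent.Results.MP_98930f_lc.SpeedBound
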